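import Pool.Agent.Helper86.QA.St2

/-!
# Project QD, part A, module PD3: free and locally free actions; fundamental domains
-/

set_option autoImplicit false

open MeasureTheory Matrix Set Topology
open scoped ENNReal ComplexConjugate

namespace Pool.Agent.Helper32.QA

open Pool.Agent.Helper86.QA

/-- freeness from properness and torsion freeness -/
private theorem free_aux {Γ : Type} [Group Γ] {α : Type} (a : Γ → α → α) (S : Set α)
    (hone : ∀ x ∈ S, a 1 x = x)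
    (hmul : ∀ (γ δ : Γ) (x : α), x ∈ S → a (γ * δ) x = a γ (a δ x))
    (htf : ∀ (γ : Γ) (n : ℕ), 1 ≤ n → γ ^ n = 1 → γ = 1)
    (x : α) (hx : x ∈ S) (hfin : {γ : Γ | ∃ y ∈ ({x} : Set α), a γ y ∈ ({x} : Set α)}.Finite)
    (γ : Γ) (hγ : a γ x = x) : γ = 1 := by
  have hpow : ∀ n : ℕ, a (γ ^ n) x = x := by
    intro n
    induction n with
    | zero => simpa using hone x hx
    | succ n ih =>
      rw [pow_succ, hmul _ _ x hx, hγ, ih]
  have hmaps : ∀ n : ℕ, γ ^ n ∈ {γ : Γ | ∃ y ∈ ({x} : Set α), a γ y ∈ ({x} : Set α)} := by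
    intro n
    exact ⟨x, rfl, hpow n⟩
  obtain ⟨m, n, hmn, he⟩ : ∃ m n : ℕ, m < n ∧ γ ^ m = γ ^ n := by
    have hni : ¬ Function.Injective (fun n : ℕ => γ ^ n) := by
      intro hinj
      exact Set.infinite_of_injective_forall_mem hinj hmaps hfin
    rw [Function.Injective] at hni
    push Not at hni
    obtain ⟨m, n, h1, h2⟩ := hni
    rcases lt_or_gt_of_ne h2 with h | h
    · exact ⟨m, n, h, h1⟩
    · exact ⟨n, m, h, h1.symm⟩
  apply htf γ (n - m) (by omega)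
  have h3 : γ ^ m * γ ^ (n - m) = γ ^ m * 1 := by
    rw [← pow_add, mul_one, he]
    congr 1
    omega
  exact mul_left_cancel h3

/-- local freeness -/
private theorem lfree_aux {Γ : Type} [Group Γ] {α : Type} [TopologicalSpace α] [T2Space α]
    [LocallyCompactSpace α] (a : Γ → α → α) (S : Set α) (hS : IsOpen S)
    (hc : ∀ (γ : Γ), ∀ x ∈ S, ContinuousAt (a γ) x)
    (hfin : ∀ K : Set α, IsCompact K → K ⊆ S → {γ : Γ | ∃ y ∈ K, a γ y ∈ K}.Finite)
    (hfree : ∀ (γ : Γ), ∀ x ∈ S, a γ x = x → γ = 1)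
    (x : α) (hx : x ∈ S) :
    ∃ W : Set α, IsOpen W ∧ x ∈ W ∧ W ⊆ S ∧ ∀ γ : Γ, γ ≠ 1 → ∀ y ∈ W, a γ y ∉ W := by
  obtain ⟨K, hK, hxK, hKS⟩ := exists_compact_subset hS hx
  have hf := hfin K hK hKS
  -- for every `γ ≠ 1` an open neighbourhood
  have hW : ∀ γ : Γ, ∃ W : Set α, IsOpen W ∧ x ∈ W ∧ (γ ≠ 1 → ∀ y ∈ W, a γ y ∉ W) := by
    intro γ
    by_cases h1 : γ = 1
    · exact ⟨Set.univ, isOpen_univ, Set.mem_univ _, fun h => absurd h1 h⟩
    · have hne : a γ x ≠ x := fun h => h1 (hfree γ x hx h)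
      obtain ⟨U, V, hU, hV, hxU, hxV, hUV⟩ := t2_separation hne
      have hpre : (a γ) ⁻¹' U ∈ 𝓝 x := (hc γ x hx).preimage_mem_nhds (hU.mem_nhds hxU)
      obtain ⟨W, hWs, hWo, hxW⟩ := mem_nhds_iff.mp (Filter.inter_mem hpre (hV.mem_nhds hxV))
      refine ⟨W, hWo, hxW, ?_⟩
      intro _ y hy hay
      have h2 : a γ y ∈ U := (hWs hy).1
      have h3 : a γ y ∈ V := (hWs hay).2
      exact Set.disjoint_left.mp hUV h2 h3
  choose W hWo hxW hWd using hW
  refine ⟨interior K ∩ ⋂ γ ∈ {γ : Γ | ∃ y ∈ K, a γ y ∈ K}, W γ, ?_, ?_, ?_, ?_⟩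
  · exact isOpen_interior.inter (hf.isOpen_biInter (fun γ _ => hWo γ))
  · refine ⟨hxK, ?_⟩
    simp only [Set.mem_iInter]
    intro γ _
    exact hxW γ
  · intro y hy
    exact hKS (interior_subset hy.1)
  · intro γ hγ y hy hay
    have hmem : γ ∈ {γ : Γ | ∃ y ∈ K, a γ y ∈ K} :=
      ⟨y, interior_subset hy.1, interior_subset hay.1⟩
    have h1 : y ∈ W γ := by
      have := hy.2
      simp only [Set.mem_iInter] at this
      exact this γ hmem
    have h2 : a γ y ∈ W γ := by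
      have := hay.2
      simp only [Set.mem_iInter] at this
      exact this γ hmem
    exact hWd γ hγ y h1 h2

/-- PD3 (free and locally free actions; fundamental domains) -/
theorem hPD3 (hACT : StACT) (hCHV : StCHV) (hFDX : StFDX) (hACU : StACU) (hPD2 : StPD2) :
    StPD3 := by
  intro Γ _ ρ A B hKD
  obtain ⟨hcount, hactU, hactA, _, _, _, _⟩ := hACU Γ ρ A B hKD
  have : Countable Γ := hcount
  have hPU : ∀ K : Set Pt, IsCompact K → K ⊆ up → {γ : Γ | ∃ y ∈ K, au ρ γ y ∈ K}.Finite := by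
    intro K hK hKu
    exact ((hPD2 Γ ρ A B hKD ∅ ∅ 0 0 isCompact_empty (Set.empty_subset _) isCompact_empty
      (Set.empty_subset _)).2.1 K hK hKu).2
  have hPA : ∀ K : Set ℂ, IsCompact K → K ⊆ A → {γ : Γ | ∃ y ∈ K, ab ρ γ y ∈ K}.Finite := by
    intro K hK hKA
    exact (hPD2 Γ ρ A B hKD K K 0 0 hK (hKA.trans Set.subset_union_left) hK
      (hKA.trans Set.subset_union_left)).2.2
  have hfU : ∀ (γ : Γ), ∀ x ∈ up, au ρ γ x = x → γ = 1 := by
    intro γ x hx hγ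
    exact free_aux (au ρ) up hactU.one hactU.mul hKD.tf x hx
      (hPU {x} isCompact_singleton (Set.singleton_subset_iff.mpr hx)) γ hγ
  have hfA : ∀ (γ : Γ), ∀ x ∈ A, ab ρ γ x = x → γ = 1 := by
    intro γ x hx hγ
    exact free_aux (ab ρ) A hactA.one hactA.mul hKD.tf x hx
      (hPA {x} isCompact_singleton (Set.singleton_subset_iff.mpr hx)) γ hγ
  have hcU : ∀ (γ : Γ), ∀ x ∈ up, ContinuousAt (au ρ γ) x := by
    intro γ x hx
    exact ((hACT.2.2.2.1 (ρ γ)).2).continuousAt (up_open.mem_nhds hx)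
  have hcA : ∀ (γ : Γ), ∀ x ∈ A, ContinuousAt (ab ρ γ) x := by
    intro γ x hx
    have h0 := (hKD.mpA γ x hx).1
    unfold ab mb
    apply ContinuousAt.div
    · fun_prop
    · fun_prop
    · exact h0
  refine ⟨?_, ?_⟩
  · intro U hU hUu
    exact hFDX Γ Pt (au ρ) up U up_open hactU.ms hactU.one hactU.mul hactU.me
      (fun x hx => lfree_aux (au ρ) up up_open hcU hPU hfU x hx) hU hUu
  · obtain ⟨D, hD, _⟩ := hFDX Γ ℂ (ab ρ) A ∅ hKD.opA hactA.ms hactA.one hactA.mul hactA.me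
      (fun x hx => lfree_aux (ab ρ) A hKD.opA hcA hPA hfA x hx) isOpen_empty
      (Set.empty_subset _)
    exact ⟨D, hD⟩

end Pool.Agent.Helper32.QA
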